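import Mathlib
import Pool.Agent.TH115.GD.Defs
import Pool.Agent.TH115.TC.FamMain

/-!
# The Tate conjecture at 2 for elliptic surfaces without sections of order two

Let `k` be a field of characteristic different from 2 (for example finitely generated over its
prime field), `k'` a separable closure, `K = k(t)`, `F = k'(t)`. Let

`g = x³ + b₂ x² + b₁ x + b₀`

be a separable polynomial over `k`, `s` a nonzero constant, which is a square if `g` has a root in
`k`, and let `h` be the composite of quadratic polynomials `a₁ t² + c₁`, ..., `aₙ t² + cₙ` over `k`.
Suppose that for every (finite) critical value `γ` of `h`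

* the cubic polynomial `G = g + s γ²` is irreducible and separable;
* for a root `r` of `g` in `k`, no constant multiple `c (x - r)`, `c ≠ 0`, is a square modulo `G`.

Let `X` be the elliptic surface over the projective line with the generic fibre

`E : y² = g(x) + s h(t)²`.

Theorem. Every class in `V₂ Sel(E / F)` which is fixed by the Galois group of `k` comes from `E(K)`.

As `Br(X ⊗ k') = Ш(E / F)` up to `p`-torsion (Grothendieck), this is the Tate conjecture for
divisors on `X` at the prime 2. The curve `E` has no points of order two over `F`, its geometric
genus grows with `n` (`a₆` has degree `2 ^ (n + 1)`), and for the roots `r` of `g` it has the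
sections `(r, √s h(t))`.

The condition is on the set of critical values only. For example the composite of `n` copies of
`2 t² - 1` is the Chebyshev polynomial of degree `2 ^ n`, the critical values are `1`, `-1`, and
there is only one polynomial `G = g + s`, for all `n`.

The proof: the classes of order two are given by the elements of the field `N = k(C)` of the
trigonal curve `C : g(x) + s h(t)² = 0` which have even valuations at all finite places. They are
determined by a descent in the tower of quadratic coverings `C → ... → (x-line)`.
-/

namespace Pool.Agent.Results.MP_89bcae_ag.TateQuadraticPullbacks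

open Polynomial Pool.Agent.TH115.GD

/-- `cb b₂ b₁ b₀` is `g`, `cq l` is the composite of the quadratic polynomials `a X ^ 2 + c`,
`(a, c) ∈ l`, and `crit l` the list of its critical values; `famC` is the curve `E`. -/
theorem result {k k' K F : Type} [Field k] [Field k'] [Algebra k k'] [Field K] [Algebra k[X] K]
    [Field F] [Algebra k'[X] F] [IsFractionRing k'[X] F] [Algebra K F] (hT : IsTower k k' K F)
    (h2 : (2 : k) ≠ 0) {b₂ b₁ b₀ s : k} (hg : (cb b₂ b₁ b₀).Separable) (hs : s ≠ 0)
    (hsq : IsSquare s ∨ ∀ r, (cb b₂ b₁ b₀).eval r ≠ 0) {l : List (k × k)}
    (hl : ∀ p ∈ l, p.1 ≠ 0) (hgood : ∀ γ ∈ crit l, Good (cb b₂ b₁ b₀) (s * γ ^ 2)) :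
    TateAtTwo (F := F) k' (famC K b₂ b₁ b₀ s (cq l)) :=
  fam_tate hT h2 hg hs hsq hl hgood

end Pool.Agent.Results.MP_89bcae_ag.TateQuadraticPullbacks
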