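import Mathlib
import Pool.Agent.TH115.GD.Defs
import Pool.Agent.TH958.T2.Fin

/-!
# The Tate conjecture at 2 for elliptic surfaces of unbounded rank and unbounded genus

Let `q = p ^ ν` be a power of a prime with `q = 1` modulo `4`, and let `k` be any field of
characteristic `p` which contains the field with `q ^ 2` elements (for example finite, or finitely
generated over its prime field): there are `i` in `k` with `i ^ 2 = -1` and a primitive root of
unity `ω` of order `q + 1`. Let `f ≠ 0` and `h` be polynomials over `k`, `2 deg f < deg h`, `deg h`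
odd, such that `h` and `h - ζ f ^ 2` are irreducible and separable for all `ζ` with
`ζ ^ (q + 1) = 1`. Let `X` be the elliptic surface over the projective line over `k` with the
generic fibre

`E : y ^ 2 = x (x - f ^ (q + 1) - h ^ ((q + 1) / 2)) (x - f ^ (q + 1) + h ^ ((q + 1) / 2))`

over `K = k(t)`. (`X` is the pullback of the surface `y ^ 2 = x (x - 1 - s ^ ((q + 1) / 2))
(x - 1 + s ^ ((q + 1) / 2))` by the map `s = h / f ^ 2`, a map of arbitrary odd degree; its geometric
genus tends to infinity with `q` or with the degree of `h`.)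

Theorem. (1) The Tate conjecture for divisors at the prime 2 holds for `X`: every class in
`V₂ Sel(E / F)` (`F = k'(t)`, `k'` a separable closure of `k`) which is fixed by the Galois group of
`k` comes from `E(K)`. (2) `E(K)` contains `q` linearly independent points, so the number of
independent Tate classes which have to be algebraic, and are, is not bounded.
(3) The conditions on `k`, `f`, `h` are satisfied for all `p`, `ν` by `f = 1` and polynomials `h` of
arbitrarily large degree over suitable finite fields, and over every field `k = κ(s)` by `f = 1`,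
`h = t ^ r - s` for all primes `r ≠ 2, p`.

Method: for `ζ ^ (q + 1) = 1` put `z = ζ⁻¹ h - f ^ 2`. There is a point `P_ζ` on `E` with
`x = -z ^ ((q + 1) / 2)`, and its class modulo squares is explicit by the Frobenius identity
`(s - i f) (s + i f) ^ q + (s + i f) (s - i f) ^ q = 2 (s ^ (q + 1) + f ^ (q + 1))`. These points
and the point with `x = f ^ (q + 1)` fill the group of all triples of divisors which the
2-descent for Galois-invariant classes allows.
-/

namespace Pool.Agent.Results.MP_89bcae_ag.TateUnboundedRank

open Polynomial Pool.Agent.TH115.GD Pool.Agent.TH958.T2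
open scoped Classical

theorem result :
    (∀ (p ν : ℕ) [Fact p.Prime], p ^ ν % 4 = 1 → 0 < ν →
      ∀ (k k' K F : Type) [Field k] [CharP k p] [Field k'] [Algebra k k'] [Field K]
        [Algebra k[X] K] [Field F] [Algebra k'[X] F] [IsFractionRing k'[X] F] [Algebra K F],
        IsTower k k' K F → ∀ i ω : k, i ^ 2 = -1 → IsPrimitiveRoot ω (p ^ ν + 1) →
          ∀ f h : k[X], Admissible (p ^ ν) f h →
            TateAtTwo (F := F) k' (curve K (p ^ ν) f h) ∧
              ∃ P : Fin (p ^ ν) → Pt (curve K (p ^ ν) f h) K, LinearIndependent ℤ P) ∧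
    (∀ (p ν : ℕ) [Fact p.Prime], p ^ ν % 4 = 1 → 0 < ν →
      (∃ (k : Type) (_ : Field k) (_ : Finite k) (_ : CharP k p) (i ω : k), i ^ 2 = -1 ∧
        IsPrimitiveRoot ω (p ^ ν + 1) ∧ ∀ N : ℕ, ∃ h : k[X], N ≤ h.natDegree ∧
          Admissible (p ^ ν) 1 h) ∧
      ∀ (κ k : Type) [Field κ] [CharP κ p] [Field k] [Algebra κ[X] k] [IsFractionRing κ[X] k]
        (r : ℕ), r.Prime → r ≠ 2 → r ≠ p →
          Admissible (p ^ ν) 1 (X ^ r - C (algebraMap κ[X] k X))) :=
  ⟨fun _ _ _ h4 hν _ _ _ _ _ _ _ _ _ _ _ _ _ _ hT _ _ hi hω _ _ A => main h4 hν hT hi hω A,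
    fun _ _ _ h4 hν => ⟨exist h4 hν, fun _ _ _ _ _ _ _ _ hr hr2 hrp => exist_inf _ hr hr2 hrp⟩⟩

end Pool.Agent.Results.MP_89bcae_ag.TateUnboundedRank
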