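import Mathlib
import Pool.Agent.TH115.GD.Defs
import Pool.Agent.TH115.ID.Defs
import Pool.Agent.TH115.ID.Gener

/-!
# The Tate conjecture at 2 for the elliptic surfaces with a section of order two: the generic case

Let `k` be a field of characteristic different from 2 (for example finitely generated over its
prime field), `k'` a separable closure, `K = k(t)`, `F = k'(t)`, and

`E : y² = x (x² + a x + b)`

with polynomials `a`, `b` over `k`. Every elliptic curve over `K` with a rational point of order two
has such an equation. The discriminant of `E` is `16 b² (a² - 4 b)`.

`TateAtTwo` says that all the classes in `V₂ Sel(E / F)` which are fixed by the Galois group of `k`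
come from `E(K)`; as `Br(X ⊗ k') = Ш(E / F)` up to `p`-torsion (Grothendieck), this is the Tate
conjecture for divisors at the prime 2 on the elliptic surface `X` over the projective line with
generic fibre `E`.

Theorem. Suppose that `b` and `a² - 4 b` are constants times odd powers of separable irreducible
polynomials, and that neither of them is a constant times the norm of a polynomial over a
quadratic extension of `k` (this is automatic if the degrees are odd, and it holds if the
irreducible polynomials stay irreducible over all quadratic extensions of `k`). Then the Tate
conjecture at 2 holds for `E`.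

There is no condition on the degree of `a`, on common factors or on the fibre at infinity. For
general `a`, `b` of degrees `≤ 2 n` and `≤ 4 n` the geometric genus of `X` is `n - 1`.

The proof is a descent by the 2-isogenies `E → E'`, `E' → E` over `F`, with `E' : y² = x (x² - 2 a x
+ a² - 4 b)`, for classes which are fixed by the Galois group: the first layer of a class `c` in
`T₂ Sel(E / F)` gives a divisor of `b` over `k'` which is fixed by the Galois group up to the
divisor of the point `(0, 0)`, and then a divisor of `a² - 4 b` with the same property. For
`b` and `a² - 4 b` as above only the divisors of the points of order two are left, so `c` is divisible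
by two modulo the points of `E(K)`.
-/

namespace Pool.Agent.Results.MP_89bcae_ag.TwoTorsionSection

open Polynomial Pool.Agent.TH115.GD

theorem result {k k' K F : Type} [Field k] [Field k'] [Algebra k k'] [Field K] [Algebra k[X] K]
    [Field F] [Algebra k'[X] F] [IsFractionRing k'[X] F] [Algebra K F] (hT : IsTower k k' K F)
    (h2 : (2 : k) ≠ 0) {a b π ρ : k[X]} {u v : k} {m n : ℕ} (hu : u ≠ 0) (hv : v ≠ 0)
    (hπ : Irreducible π) (hρ : Irreducible ρ) (sπ : π.Separable) (sρ : ρ.Separable)
    (hb : b = C u * π ^ (2 * m + 1)) (hd : a ^ 2 - 4 * b = C v * ρ ^ (2 * n + 1))
    (hNb : Odd b.natDegree ∨ NotNorm b)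
    (hNd : Odd (a ^ 2 - 4 * b).natDegree ∨ NotNorm (a ^ 2 - 4 * b)) :
    TateAtTwo (F := F) k' (crvT (algebraMap k[X] K a) (algebraMap k[X] K b)) :=
  genericT hT h2 hu hv hπ hρ sπ sρ hb hd (hNb.elim notNorm_of_odd id) (hNd.elim notNorm_of_odd id)

end Pool.Agent.Results.MP_89bcae_ag.TwoTorsionSection
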